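import Pool.Agent.Helper79.NC.Assembly

/-!
A closed Riemannian three-manifold without conjugate points which contains two freely homotopic
closed geodesics that are not homotopic through closed geodesics.
-/

set_option autoImplicit false

namespace Pool.Agent.Results.MP_4787eb_gt.NotThroughClosedGeodesics

open Pool.Agent.Helper79.NC

/-- There are a smooth Riemannian metric `g` on the three-dimensional space `ℂ × ℝ` and a group
`Γ` acting freely, properly discontinuously and cocompactly by smooth isometries, such that `g` has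
no conjugate points and the closed manifold `M = (ℂ × ℝ)/Γ` contains two freely homotopic closed
geodesics `γ₀`, `γ₁` which are not homotopic through closed geodesics. -/
theorem result :
    ∃ (Γ : Type) (_ : Group Γ) (_ : MulAction Γ (ℂ × ℝ))
      (g : ℂ × ℝ → (ℂ × ℝ) →L[ℝ] (ℂ × ℝ) →L[ℝ] ℝ),
      Module.finrank ℝ (ℂ × ℝ) = 3 ∧ PresentsClosedManifold Γ g ∧ NoConjugatePoints g ∧
      ∃ γ₀ γ₁ : C(AddCircle (1 : ℝ), QuotM (ℂ × ℝ) Γ),
        IsClosedGeodesic Γ g γ₀ ∧ IsClosedGeodesic Γ g γ₁ ∧
        ContinuousMap.Homotopic γ₀ γ₁ ∧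
        ¬ HomotopicThroughClosedGeodesics Γ g γ₀ γ₁ := by
  obtain ⟨Γ, hG, hA, g, h1, h2, h3⟩ := counterexample
  refine ⟨Γ, hG, hA, g, ?_, h1, h2, h3⟩
  rw [Module.finrank_prod, Complex.finrank_real_complex, Module.finrank_self]

end Pool.Agent.Results.MP_4787eb_gt.NotThroughClosedGeodesics
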